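import Mathlib

set_option autoImplicit false

namespace Pool.Agent.Y825.BR

open MeasureTheory
open scoped ENNReal unitInterval

/-- `emb(F,G)`: the number of injective maps `V(F) → V(G)` sending edges to edges. -/
noncomputable def emb {k n : ℕ} (F : SimpleGraph (Fin k)) (G : SimpleGraph (Fin n)) : ℕ :=
  Nat.card {f : Fin k → Fin n // Function.Injective f ∧ ∀ u v, F.Adj u v → G.Adj (f u) (f v)}

/-- The normalised subgraph count `s_p(F,G) = emb(F,G) / (p^{e(F)} n_(k))`. -/
noncomputable def sDens (p : ℝ) {k n : ℕ} (F : SimpleGraph (Fin k)) (G : SimpleGraph (Fin n)) : ℝ :=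
  (emb F G : ℝ) / (p ^ F.edgeSet.ncard * (n.descFactorial k : ℝ))

/-- A kernel: a symmetric measurable function `κ : [0,1]² → [0,∞)`, not necessarily bounded. -/
def IsKernel (κ : I → I → ℝ) : Prop :=
  Measurable (Function.uncurry κ) ∧ (∀ x y, κ x y = κ y x) ∧ ∀ x y, 0 ≤ κ x y

open Classical in
/-- `s(F,κ) = ∫_{[0,1]^k} ∏_{ij ∈ E(F)} κ(x_i,x_j) dx`, a value in `[0,∞]`; each edge is taken once,
as the pair `i < j`. -/
noncomputable def kDens {k : ℕ} (F : SimpleGraph (Fin k)) (κ : I → I → ℝ) : ℝ≥0∞ :=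
  ∫⁻ x : Fin k → I, ∏ i, ∏ j, if i < j ∧ F.Adj i j then ENNReal.ofReal (κ (x i) (x j)) else 1

/-- The number of triangles of `F`. -/
noncomputable def numTriangles {k : ℕ} (F : SimpleGraph (Fin k)) : ℕ :=
  {t : Finset (Fin k) | F.IsNClique 3 t}.ncard

end Pool.Agent.Y825.BR
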