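import Mathlib

set_option autoImplicit false

namespace Pool.Agent.Y825.BR

open Finset Filter Topology

noncomputable section

/-- the sign of a bit -/
def chi (b : Bool) : ℝ := if b then 1 else -1

/-- the product of the two signs of a pair of bits -/
def mm : Sym2 Bool → ℝ := Sym2.lift ⟨fun x y => chi x * chi y, fun _ _ => mul_comm _ _⟩

@[simp] theorem mm_mk (x y : Bool) : mm s(x, y) = chi x * chi y := rfl

section
variable {W : Type*} [Fintype W] [DecidableEq W]

theorem mm_map (e : Sym2 W) (he : ¬ e.IsDiag) (ε : W → Bool) :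
    mm (e.map ε) = ∏ w, if w ∈ e then chi (ε w) else 1 := by
  induction e using Sym2.ind with
  | _ x y =>
    have hxy : x ≠ y := by simpa using he
    rw [Sym2.map_mk, mm_mk]
    have h : ∀ w, (if w ∈ s(x, y) then chi (ε w) else 1)
        = (if w = x then chi (ε w) else 1) * (if w = y then chi (ε w) else 1) := by
      intro w
      by_cases h1 : w = x
      · subst h1; simp [hxy]
      · simp [h1, Sym2.mem_iff]
    simp only [h, Finset.prod_mul_distrib]
    simp

/-- degree of a vertex in an edge set -/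
def dg (S : Finset (Sym2 W)) (w : W) : ℕ := (S.filter (fun e => w ∈ e)).card

theorem prod_mm (S : Finset (Sym2 W)) (hS : ∀ e ∈ S, ¬ e.IsDiag) (ε : W → Bool) :
    ∏ e ∈ S, mm (e.map ε) = ∏ w, chi (ε w) ^ dg S w := by
  rw [Finset.prod_congr rfl fun e he => mm_map e (hS e he) ε, Finset.prod_comm]
  refine Finset.prod_congr rfl fun w _ => ?_
  rw [dg, Finset.prod_ite]
  simp

theorem sum_chi_pow (n : ℕ) : ∑ b : Bool, chi b ^ n = if Even n then 2 else 0 := by
  rw [Fintype.sum_bool]
  simp only [chi, if_true, Bool.false_eq_true, if_false, one_pow]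
  split_ifs with h
  · rw [h.neg_one_pow]; norm_num
  · rw [(Nat.not_even_iff_odd.mp h).neg_one_pow]; norm_num

theorem sum_prod_mm (S : Finset (Sym2 W)) (hS : ∀ e ∈ S, ¬ e.IsDiag) :
    ∑ ε : W → Bool, ∏ e ∈ S, mm (e.map ε)
      = if (∀ w, Even (dg S w)) then 2 ^ (Fintype.card W) else 0 := by
  simp only [prod_mm S hS]
  rw [← Fintype.prod_sum (fun (w : W) (b : Bool) => chi b ^ dg S w)]
  simp only [sum_chi_pow]
  split_ifs with h
  · rw [Finset.prod_congr rfl fun w _ => if_pos (h w)]
    simp
  · push Not at h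
    obtain ⟨w, hw⟩ := h
    exact Finset.prod_eq_zero (Finset.mem_univ w) (if_neg hw)

end

section dens

variable {W E X : Type*} [Fintype W] [DecidableEq W] [Fintype E] [Fintype X]

/-- The homomorphism density of an indexed family of pairs in a finite weighted graph. -/
def dens (ends : E → Sym2 W) (κ : Sym2 X → ℝ) : ℝ :=
  (∑ σ : W → X, ∏ e, κ ((ends e).map σ)) / (Fintype.card X : ℝ) ^ Fintype.card W

/-- tensor powers -/
theorem dens_pow (ends : E → Sym2 W) (κ : Sym2 X → ℝ) (N : ℕ) :
    dens ends (fun e : Sym2 (Fin N → X) => ∏ i, κ (e.map fun x => x i)) = dens ends κ ^ N := by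
  unfold dens
  rw [div_pow]
  congr 1
  · have h1 : (∑ σ : W → X, ∏ e, κ ((ends e).map σ)) ^ N
        = ∏ _i : Fin N, ∑ σ : W → X, ∏ e, κ ((ends e).map σ) := by simp
    rw [h1, Fintype.prod_sum]
    refine Fintype.sum_equiv (Equiv.piComm fun (_ : W) (_ : Fin N) => X) _ _ fun σ => ?_
    rw [Finset.prod_comm]
    refine Finset.prod_congr rfl fun i _ => Finset.prod_congr rfl fun e _ => ?_
    rw [Sym2.map_map]
    rfl
  · rw [Fintype.card_fun, Fintype.card_fin]
    push_cast
    rw [← pow_mul, ← pow_mul, mul_comm]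

/-- the expansion of the density of the two-point weighted graph `1 + a ε ε'` -/
theorem dens_base (D : Finset (Sym2 W)) (hD : ∀ e ∈ D, ¬ e.IsDiag) (a : ℝ) :
    dens (Subtype.val : D → Sym2 W) (fun e => 1 + a * mm e)
      = ∑ S ∈ D.powerset, if (∀ w, Even (dg S w)) then a ^ S.card else 0 := by
  classical
  unfold dens
  have h1 : ∀ σ : W → Bool, ∏ e : D, (1 + a * mm ((e : Sym2 W).map σ))
      = ∑ S ∈ D.powerset, a ^ S.card * ∏ e ∈ S, mm (e.map σ) := by
    intro σ
    rw [Finset.prod_coe_sort D (fun e => 1 + a * mm (e.map σ)), Finset.prod_one_add]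
    refine Finset.sum_congr rfl fun S _ => ?_
    rw [Finset.prod_mul_distrib, Finset.prod_const]
  simp only [h1]
  rw [Finset.sum_comm, Finset.sum_div]
  refine Finset.sum_congr rfl fun S hS => ?_
  rw [← Finset.mul_sum, sum_prod_mm S fun e he => hD e (Finset.mem_powerset.mp hS he)]
  split_ifs with h
  · have : (Fintype.card Bool : ℝ) = 2 := by simp
    rw [this]
    field_simp
  · simp

end dens

section even

variable {W : Type*} [DecidableEq W]

/-- In an even edge set every endpoint of an edge lies in a second edge. -/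
theorem exists_second {S : Finset (Sym2 W)} (hev : ∀ w, Even (dg S w)) {e : Sym2 W} (he : e ∈ S)
    {u : W} (hu : u ∈ e) : ∃ e' ∈ S, e' ≠ e ∧ u ∈ e' := by
  by_contra hcon
  push Not at hcon
  have h1 : S.filter (fun e => u ∈ e) = {e} := by
    ext e'
    simp only [Finset.mem_filter, Finset.mem_singleton]
    constructor
    · rintro ⟨h1, h2⟩
      by_contra h3
      exact hcon e' h1 h3 h2
    · rintro rfl
      exact ⟨he, hu⟩
  have h2 : dg S u = 1 := by rw [dg, h1, Finset.card_singleton]
  have h3 := hev u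
  rw [h2] at h3
  exact absurd h3 (by decide)

omit [DecidableEq W] in
theorem eq_mk_of_mem {u v : W} (huv : u ≠ v) {e : Sym2 W} (hu : u ∈ e) (hv : v ∈ e) : e = s(u, v) :=
  (Sym2.mem_and_mem_iff huv).mp ⟨hu, hv⟩

/-- a nonempty even set of proper edges has at least three edges, and if it has three edges it is
a triangle -/
theorem even_structure {S : Finset (Sym2 W)} (hS : ∀ e ∈ S, ¬ e.IsDiag)
    (hev : ∀ w, Even (dg S w)) (hne : S.Nonempty) :
    3 ≤ S.card ∧ (S.card = 3 → ∃ u v w : W, u ≠ v ∧ u ≠ w ∧ v ≠ w ∧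
      S = {s(u, v), s(u, w), s(v, w)}) := by
  obtain ⟨e, he⟩ := hne
  induction e using Sym2.ind with
  | _ u v =>
  have huv : u ≠ v := by simpa using hS _ he
  obtain ⟨e2, he2, hne2, hu2⟩ := exists_second hev he (u := u) (by simp)
  obtain ⟨e3, he3, hne3, hv3⟩ := exists_second hev he (u := v) (by simp)
  have h23 : e2 ≠ e3 := by
    rintro rfl
    exact hne2 (eq_mk_of_mem huv hu2 hv3)
  have hsub : ({s(u, v), e2, e3} : Finset (Sym2 W)) ⊆ S := by
    intro x hx
    simp only [Finset.mem_insert, Finset.mem_singleton] at hx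
    rcases hx with rfl | rfl | rfl <;> assumption
  have hc3 : ({s(u, v), e2, e3} : Finset (Sym2 W)).card = 3 := by
    rw [Finset.card_insert_of_notMem, Finset.card_insert_of_notMem, Finset.card_singleton]
    · simpa using h23
    · simp only [Finset.mem_insert, Finset.mem_singleton, not_or]
      exact ⟨hne2.symm, hne3.symm⟩
  refine ⟨hc3 ▸ Finset.card_le_card hsub, fun hcard => ?_⟩
  have hSeq : S = {s(u, v), e2, e3} :=
    (Finset.eq_of_subset_of_card_le hsub (by rw [hcard, hc3])).symm
  obtain ⟨w, hw⟩ := Sym2.mem_iff_exists.mp hu2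
  have hwv : w ≠ v := by
    rintro rfl
    exact hne2 hw
  have huw : u ≠ w := by
    rintro rfl
    exact hS _ he2 (by rw [hw]; simp)
  obtain ⟨e4, he4, hne4, hw4⟩ := exists_second hev he2 (u := w) (by rw [hw]; simp)
  have h43 : e4 = e3 := by
    rw [hSeq] at he4
    simp only [Finset.mem_insert, Finset.mem_singleton] at he4
    rcases he4 with rfl | rfl | rfl
    · simp only [Sym2.mem_iff] at hw4
      rcases hw4 with h | h
      · exact absurd h.symm huw
      · exact absurd h hwv
    · exact absurd rfl hne4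
    · rfl
  subst h43
  have h3 : e4 = s(v, w) := eq_mk_of_mem hwv.symm hv3 hw4
  exact ⟨u, v, w, huv, huw, hwv.symm, by rw [hSeq, hw, h3]⟩

theorem dg_triangle {u v w : W} (huv : u ≠ v) (huw : u ≠ w) (hvw : v ≠ w) (x : W) :
    Even (dg ({s(u, v), s(u, w), s(v, w)} : Finset (Sym2 W)) x) := by
  have h12 : s(u, v) ≠ s(u, w) := by simp [hvw, huv.symm]
  have h13 : s(u, v) ≠ s(v, w) := by simp [huv, huw]
  have h23 : s(u, w) ≠ s(v, w) := by simp [huv, huw]
  unfold dg
  rw [Finset.filter_insert, Finset.filter_insert, Finset.filter_singleton]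
  by_cases h1 : x = u
  · subst h1
    simp [huv, huw, h12]
  · by_cases h2 : x = v
    · subst h2
      simp [huv.symm, hvw, h13]
    · by_cases h3 : x = w
      · subst h3
        simp [huw.symm, hvw.symm, h23]
      · simp [h1, h2, h3]

end even

end

end Pool.Agent.Y825.BR
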