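import Mathlib
import Pool.Agent.Y825.BR.Poly
import Pool.Agent.Y825.BR.Defs

set_option autoImplicit false

namespace Pool.Agent.Y825.BR

open Finset Filter Topology

noncomputable section

section tri

variable {W : Type*} [Fintype W] [DecidableEq W]

omit [Fintype W] in
theorem mem_tri {u v w x : W} :
    (∃ e ∈ ({s(u, v), s(u, w), s(v, w)} : Finset (Sym2 W)), x ∈ e) ↔
      x ∈ ({u, v, w} : Finset W) := by
  simp only [Finset.mem_insert, Finset.mem_singleton, exists_eq_or_imp, exists_eq_left,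
    Sym2.mem_iff]
  tauto

/-- the even three-element edge sets of `F` are exactly the triangles -/
theorem card_even_three (F : SimpleGraph W) [DecidableRel F.Adj] :
    (F.edgeFinset.powerset.filter (fun S => (∀ w, Even (dg S w)) ∧ S.card = 3)).card
      = {t : Finset W | F.IsNClique 3 t}.ncard := by
  classical
  have h0 : {t : Finset W | F.IsNClique 3 t}.ncard
      = (Finset.univ.filter (fun t : Finset W => F.IsNClique 3 t)).card := by
    rw [← Set.ncard_coe_finset]
    congr 1
    ext t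
    simp
  rw [h0]
  symm
  have hkey : ∀ u v w : W, F.Adj u v → F.Adj u w → F.Adj v w →
      F.edgeFinset.filter (fun e => ∀ x ∈ e, x ∈ ({u, v, w} : Finset W))
        = {s(u, v), s(u, w), s(v, w)} := by
    intro u v w huv huw hvw
    ext e
    induction e using Sym2.ind with
    | _ x y =>
    simp only [Finset.mem_filter, SimpleGraph.mem_edgeFinset, SimpleGraph.mem_edgeSet,
      Sym2.mem_iff, Finset.mem_insert, Finset.mem_singleton, forall_eq_or_imp, forall_eq,
      Sym2.eq_iff]
    constructor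
    · rintro ⟨hxy, h1, h2⟩
      have := hxy.ne
      rcases h1 with rfl | rfl | rfl <;> rcases h2 with rfl | rfl | rfl <;> simp_all
    · rintro ((⟨rfl, rfl⟩ | ⟨rfl, rfl⟩) | (⟨rfl, rfl⟩ | ⟨rfl, rfl⟩) | (⟨rfl, rfl⟩ | ⟨rfl, rfl⟩)) <;>
        simp [huv, huw, hvw, huv.symm, huw.symm, hvw.symm]
  refine Finset.card_bij (fun t _ => F.edgeFinset.filter (fun e => ∀ x ∈ e, x ∈ t)) ?_ ?_ ?_
  · intro t ht
    rw [Finset.mem_filter] at ht
    obtain ⟨u, v, w, huv, huw, hvw, rfl⟩ := SimpleGraph.is3Clique_iff.mp ht.2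
    rw [Finset.mem_filter, hkey u v w huv huw hvw]
    refine ⟨?_, fun x => dg_triangle huv.ne huw.ne hvw.ne x, ?_⟩
    · rw [Finset.mem_powerset]
      intro e he
      simp only [Finset.mem_insert, Finset.mem_singleton] at he
      rcases he with rfl | rfl | rfl <;> simp [huv, huw, hvw]
    · have h12 : s(u, v) ≠ s(u, w) := by simp [hvw.ne, huv.ne.symm]
      have h13 : s(u, v) ≠ s(v, w) := by simp [huv.ne, huw.ne]
      have h23 : s(u, w) ≠ s(v, w) := by simp [huv.ne, huw.ne]
      rw [Finset.card_insert_of_notMem, Finset.card_insert_of_notMem, Finset.card_singleton]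
      · simpa using h23
      · simp only [Finset.mem_insert, Finset.mem_singleton, not_or]
        exact ⟨h12, h13⟩
  · intro t ht t' ht' hEq
    rw [Finset.mem_filter] at ht ht'
    obtain ⟨u, v, w, huv, huw, hvw, rfl⟩ := SimpleGraph.is3Clique_iff.mp ht.2
    obtain ⟨u', v', w', huv', huw', hvw', rfl⟩ := SimpleGraph.is3Clique_iff.mp ht'.2
    simp only [hkey u v w huv huw hvw, hkey u' v' w' huv' huw' hvw'] at hEq
    ext x
    rw [← mem_tri, ← mem_tri, hEq]
  · intro S hS
    rw [Finset.mem_filter, Finset.mem_powerset] at hS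
    have hdiag : ∀ e ∈ S, ¬ e.IsDiag := fun e he =>
      F.not_isDiag_of_mem_edgeFinset (hS.1 he)
    have hne : S.Nonempty := by
      rw [← Finset.card_pos, hS.2.2]; norm_num
    obtain ⟨u, v, w, huv, huw, hvw, hSe⟩ := (even_structure hdiag hS.2.1 hne).2 hS.2.2
    have h1 : F.Adj u v := by
      have : s(u, v) ∈ F.edgeFinset := hS.1 (by rw [hSe]; simp)
      simpa using this
    have h2 : F.Adj u w := by
      have : s(u, w) ∈ F.edgeFinset := hS.1 (by rw [hSe]; simp)
      simpa using this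
    have h3 : F.Adj v w := by
      have : s(v, w) ∈ F.edgeFinset := hS.1 (by rw [hSe]; simp)
      simpa using this
    refine ⟨{u, v, w}, ?_, ?_⟩
    · rw [Finset.mem_filter]
      exact ⟨Finset.mem_univ _, SimpleGraph.is3Clique_iff.mpr ⟨u, v, w, h1, h2, h3, rfl⟩⟩
    · rw [hkey u v w h1 h2 h3, hSe]

end tri

/-- the bias `N^(-1/3)` -/
def aN (N : ℕ) : ℝ := (N : ℝ) ^ (-(1 / 3 : ℝ))

theorem aN_nonneg (N : ℕ) : 0 ≤ aN N := Real.rpow_nonneg (Nat.cast_nonneg N) _

theorem aN_cube {N : ℕ} (hN : 1 ≤ N) : (N : ℝ) * aN N ^ 3 = 1 := by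
  have h0 : (0 : ℝ) < N := by exact_mod_cast hN
  unfold aN
  rw [← Real.rpow_natCast, ← Real.rpow_mul h0.le]
  norm_num
  rw [Real.rpow_neg_one]
  field_simp

theorem aN_le_one {N : ℕ} (hN : 1 ≤ N) : aN N ≤ 1 := by
  have h1 : (1 : ℝ) ≤ N := by exact_mod_cast hN
  exact Real.rpow_le_one_of_one_le_of_nonpos h1 (by norm_num)

theorem tendsto_aN : Tendsto aN atTop (𝓝 0) :=
  (tendsto_rpow_neg_atTop (y := 1 / 3) (by norm_num)).comp tendsto_natCast_atTop_atTop

theorem tendsto_N_aN_pow (m : ℕ) (hm : 3 ≤ m) :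
    Tendsto (fun N : ℕ => (N : ℝ) * aN N ^ m) atTop (𝓝 (if m = 3 then 1 else 0)) := by
  obtain ⟨j, rfl⟩ := Nat.exists_eq_add_of_le hm
  have h1 : Tendsto (fun N : ℕ => aN N ^ j) atTop (𝓝 (if 3 + j = 3 then 1 else 0)) := by
    rcases Nat.eq_zero_or_pos j with rfl | hj
    · simp
    · have := tendsto_aN.pow j
      rw [zero_pow hj.ne'] at this
      rw [if_neg (by omega)]
      exact this
  refine h1.congr' ?_
  filter_upwards [eventually_ge_atTop 1] with N hN
  rw [pow_add, ← mul_assoc, aN_cube hN, one_mul]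

/-- the `N`-th kernel on the finite space `{±1}^N` -/
def kapN (N : ℕ) : Sym2 (Fin N → Bool) → ℝ := fun e => ∏ i, (1 + aN N * mm (e.map fun x => x i))

/-- **The limit of the densities.** -/
theorem tendsto_dens {W : Type*} [Fintype W] [DecidableEq W] (F : SimpleGraph W)
    [DecidableRel F.Adj] :
    Tendsto (fun N : ℕ => dens (Subtype.val : F.edgeFinset → Sym2 W) (kapN N)) atTop
      (𝓝 (Real.exp ({t : Finset W | F.IsNClique 3 t}.ncard : ℝ))) := by
  classical
  have hD : ∀ e ∈ F.edgeFinset, ¬ e.IsDiag := fun e he => F.not_isDiag_of_mem_edgeFinset he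
  set g : ℕ → ℝ := fun N => ∑ S ∈ F.edgeFinset.powerset.erase ∅,
    if (∀ w, Even (dg S w)) then aN N ^ S.card else 0 with hg
  have h1 : ∀ N, dens (Subtype.val : F.edgeFinset → Sym2 W) (kapN N) = (1 + g N) ^ N := by
    intro N
    have h2 := dens_pow (Subtype.val : F.edgeFinset → Sym2 W) (fun e => 1 + aN N * mm e) N
    unfold kapN
    rw [h2, dens_base _ hD]
    congr 1
    rw [← Finset.add_sum_erase _ _ (Finset.empty_mem_powerset F.edgeFinset)]
    congr 1
    simp [dg]
  simp only [h1]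
  apply Real.tendsto_one_add_pow_exp_of_tendsto
  have h3 : ∀ N : ℕ, (N : ℝ) * g N = ∑ S ∈ F.edgeFinset.powerset.erase ∅,
      if (∀ w, Even (dg S w)) then (N : ℝ) * aN N ^ S.card else 0 := by
    intro N
    rw [hg, Finset.mul_sum]
    refine Finset.sum_congr rfl fun S _ => ?_
    split_ifs <;> simp
  simp only [h3]
  have h4 : ({t : Finset W | F.IsNClique 3 t}.ncard : ℝ)
      = ∑ S ∈ F.edgeFinset.powerset.erase ∅,
        if (∀ w, Even (dg S w)) then (if S.card = 3 then (1 : ℝ) else 0) else 0 := by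
    rw [← card_even_three F, Finset.card_filter]
    push_cast
    rw [← Finset.add_sum_erase _ _ (Finset.empty_mem_powerset F.edgeFinset)]
    rw [if_neg (by simp), zero_add]
    refine Finset.sum_congr rfl fun S _ => ?_
    by_cases h5 : ∀ w, Even (dg S w)
    · simp [h5]
    · rw [if_neg h5, if_neg (fun h => h5 h.1)]
  rw [h4]
  refine tendsto_finsetSum _ fun S hS => ?_
  rw [Finset.mem_erase, Finset.mem_powerset] at hS
  by_cases h5 : ∀ w, Even (dg S w)
  · simp only [if_pos h5]
    have hne : S.Nonempty := Finset.nonempty_iff_ne_empty.mpr hS.1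
    exact tendsto_N_aN_pow _ (even_structure (fun e he => hD e (hS.2 he)) h5 hne).1
  · simp only [if_neg h5]
    exact tendsto_const_nhds

/-- bounds on the `N`-th kernel -/
theorem kapN_nonneg {N : ℕ} (hN : 1 ≤ N) (e : Sym2 (Fin N → Bool)) : 0 ≤ kapN N e := by
  refine Finset.prod_nonneg fun i _ => ?_
  have h1 : -1 ≤ mm (e.map fun x => x i) := by
    induction e using Sym2.ind with
    | _ x y =>
      rw [Sym2.map_mk, mm_mk]
      cases x i <;> cases y i <;> norm_num [chi]
  have h2 := aN_nonneg N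
  have h3 := aN_le_one hN
  nlinarith

theorem kapN_le {N : ℕ} (hN : 1 ≤ N) (e : Sym2 (Fin N → Bool)) : kapN N e ≤ 2 ^ N := by
  have h0 : (2 : ℝ) ^ N = ∏ _i : Fin N, (2 : ℝ) := by simp
  rw [h0]
  refine Finset.prod_le_prod (fun i _ => ?_) fun i _ => ?_
  all_goals
    have h1 : -1 ≤ mm (e.map fun x => x i) ∧ mm (e.map fun x => x i) ≤ 1 := by
      induction e using Sym2.ind with
      | _ x y =>
        rw [Sym2.map_mk, mm_mk]
        cases x i <;> cases y i <;> norm_num [chi]
    have h2 := aN_nonneg N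
    have h3 := aN_le_one hN
    nlinarith [h1.1, h1.2]

end

end Pool.Agent.Y825.BR
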