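import Mathlib

set_option autoImplicit false

namespace Pool.Agent.Y825.BR

open MeasureTheory
open scoped ENNReal

section kernel

variable {α : Type*} [MeasurableSpace α] {μ : Measure α} [IsProbabilityMeasure μ]

/-- an `ENNReal` function with `∫ d² ≤ 1` on a probability space and `∫ d ≥ 1` is `1` a.e. -/
theorem ae_eq_one_of_sq {d : α → ℝ≥0∞} (hd : Measurable d)
    (h2 : ∫⁻ x, d x ^ 2 ∂μ ≤ 1) (h1 : 1 ≤ ∫⁻ x, d x ∂μ) : ∀ᵐ x ∂μ, d x = 1 := by
  have hle : ∀ x, 2 * d x ≤ d x ^ 2 + 1 := by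
    intro x
    rcases eq_or_ne (d x) ⊤ with h | h
    · simp [h]
    · lift d x to NNReal using h with y
      have : 2 * y ≤ y ^ 2 + 1 := by
        have := two_mul_le_add_sq (y : ℝ) 1
        have h3 : (2 * (y : ℝ)) ≤ (y : ℝ) ^ 2 + 1 := by nlinarith
        exact_mod_cast h3
      exact_mod_cast this
  have hI2 : ∫⁻ x, (d x ^ 2 + 1) ∂μ ≤ 2 := by
    rw [lintegral_add_right _ measurable_const]
    simp only [lintegral_const, measure_univ, mul_one]
    calc _ ≤ (1 : ℝ≥0∞) + 1 := by gcongr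
      _ = 2 := by norm_num
  have hI1 : 2 ≤ ∫⁻ x, 2 * d x ∂μ := by
    rw [lintegral_const_mul _ hd]
    calc (2 : ℝ≥0∞) = 2 * 1 := by norm_num
      _ ≤ _ := by gcongr
  have hfin : ∫⁻ x, 2 * d x ∂μ ≠ ⊤ := by
    refine ne_top_of_le_ne_top (b := 2) (by norm_num) ?_
    exact (lintegral_mono hle).trans hI2
  have hae : (fun x => 2 * d x) =ᵐ[μ] fun x => d x ^ 2 + 1 :=
    ae_eq_of_ae_le_of_lintegral_le (Filter.Eventually.of_forall hle) hfin
      ((hd.pow_const 2).add_const 1).aemeasurable (hI2.trans hI1)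
  have hdfin : ∀ᵐ x ∂μ, d x < ⊤ := by
    have h2' : ∫⁻ x, d x ^ 2 ∂μ ≠ ⊤ := ne_top_of_le_ne_top (by norm_num) h2
    filter_upwards [ae_lt_top (hd.pow_const 2) h2'] with x hx
    by_contra hcon
    have : d x = ⊤ := by simpa using hcon
    rw [this] at hx
    simp at hx
  filter_upwards [hae, hdfin] with x hx hx'
  lift d x to NNReal using hx'.ne with y
  have h3 : 2 * y = y ^ 2 + 1 := by exact_mod_cast hx
  have h4 : 2 * (y : ℝ) = (y : ℝ) ^ 2 + 1 := by exact_mod_cast h3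
  have h5 : (y : ℝ) = 1 := by nlinarith [sq_nonneg ((y : ℝ) - 1)]
  have h6 : y = 1 := by exact_mod_cast h5
  simp [h6]

/-- `(∫ d)² ≤ ∫ d²` at value one. -/
theorem one_le_sq_of_eq_one {d : α → ℝ≥0∞} (hd : Measurable d)
    (h1 : ∫⁻ x, d x ∂μ = 1) : 1 ≤ ∫⁻ x, d x ^ 2 ∂μ := by
  by_contra hcon
  have h2 : ∫⁻ x, d x ^ 2 ∂μ < 1 := not_le.mp hcon
  have hae := ae_eq_one_of_sq (μ := μ) hd h2.le h1.ge
  have : ∫⁻ x, d x ^ 2 ∂μ = 1 := by
    rw [lintegral_congr_ae (g := fun _ => 1) (by filter_upwards [hae] with x hx; simp [hx])]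
    simp
  exact absurd this h2.ne

/-- **The kernel part.**  If a symmetric kernel has edge density `1` and `C₄` density `≤ 1`
then its triangle density is `1`. -/
theorem triangle_eq_one {κ : α → α → ℝ≥0∞} (hκ : Measurable (Function.uncurry κ))
    (hs : ∀ x y, κ x y = κ y x)
    (hK2 : ∫⁻ x, ∫⁻ y, κ x y ∂μ ∂μ = 1)
    (hC4 : ∫⁻ x, ∫⁻ z, (∫⁻ y, κ x y * κ y z ∂μ) ^ 2 ∂μ ∂μ ≤ 1) :
    ∫⁻ x, ∫⁻ z, κ x z * ∫⁻ y, κ x y * κ y z ∂μ ∂μ ∂μ = 1 := by
  -- the codegree function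
  have hm3 : Measurable (fun q : (α × α) × α => κ q.1.1 q.2 * κ q.2 q.1.2) := by
    refine Measurable.mul ?_ ?_
    · exact hκ.comp (f := fun q : (α × α) × α => (q.1.1, q.2)) (by fun_prop)
    · exact hκ.comp (f := fun q : (α × α) × α => (q.2, q.1.2)) (by fun_prop)
  have hD : Measurable (fun q : α × α => ∫⁻ y, κ q.1 y * κ y q.2 ∂μ) :=
    hm3.lintegral_prod_right'
  -- total mass of the codegree function
  have hdm : Measurable (fun y => ∫⁻ x, κ y x ∂μ) := hκ.lintegral_prod_right'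
  have hmass : ∫⁻ q, (∫⁻ y, κ q.1 y * κ y q.2 ∂μ) ∂(μ.prod μ) = ∫⁻ y, (∫⁻ x, κ y x ∂μ) ^ 2 ∂μ := by
    rw [lintegral_lintegral_swap (by
      exact (hm3).aemeasurable)]
    refine lintegral_congr fun y => ?_
    rw [lintegral_prod _ (by
      refine Measurable.aemeasurable ?_
      exact hm3.comp (f := fun q : α × α => (q, y)) (by fun_prop))]
    have h1 : ∀ x, ∫⁻ z, κ x y * κ y z ∂μ = κ x y * ∫⁻ z, κ y z ∂μ := by
      intro x
      rw [lintegral_const_mul]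
      exact hκ.comp (f := fun z => (y, z)) (by fun_prop)
    simp only [h1]
    have h2 : Measurable fun x => κ x y := hκ.comp (f := fun x => (x, y)) (by fun_prop)
    rw [lintegral_mul_const _ h2, sq]
    congr 1
    exact lintegral_congr fun x => hs x y
  have hge : 1 ≤ ∫⁻ q, (∫⁻ y, κ q.1 y * κ y q.2 ∂μ) ∂(μ.prod μ) := by
    rw [hmass]
    exact one_le_sq_of_eq_one hdm hK2
  have hsq : ∫⁻ q, (∫⁻ y, κ q.1 y * κ y q.2 ∂μ) ^ 2 ∂(μ.prod μ) ≤ 1 := by
    rw [lintegral_prod _ (hD.pow_const 2).aemeasurable]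
    exact hC4
  have hae := ae_eq_one_of_sq (μ := μ.prod μ) hD hsq hge
  calc ∫⁻ x, ∫⁻ z, κ x z * ∫⁻ y, κ x y * κ y z ∂μ ∂μ ∂μ
      = ∫⁻ q, κ q.1 q.2 * ∫⁻ y, κ q.1 y * κ y q.2 ∂μ ∂(μ.prod μ) := by
        exact (lintegral_prod (fun q : α × α => κ q.1 q.2 * ∫⁻ y, κ q.1 y * κ y q.2 ∂μ)
          (hκ.mul hD).aemeasurable).symm
    _ = ∫⁻ q, κ q.1 q.2 ∂(μ.prod μ) := by
        refine lintegral_congr_ae ?_
        filter_upwards [hae] with q hq
        rw [hq, mul_one]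
    _ = 1 := by
        rw [lintegral_prod (fun q : α × α => κ q.1 q.2) hκ.aemeasurable]
        exact hK2

end kernel

section pi

variable {α : Type*} [MeasurableSpace α] {μ : Measure α} [IsProbabilityMeasure μ]

theorem lintegral_pi_succ {n : ℕ} {f : (Fin (n + 1) → α) → ℝ≥0∞} (hf : Measurable f) :
    ∫⁻ x, f x ∂(Measure.pi fun _ : Fin (n + 1) => μ)
      = ∫⁻ a, ∫⁻ x, f (Fin.cons a x) ∂(Measure.pi fun _ : Fin n => μ) ∂μ := by
  have hmp := (measurePreserving_piFinSuccAbove (fun _ : Fin (n + 1) => μ) 0).symm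
  rw [← hmp.lintegral_comp hf]
  rw [lintegral_prod]
  · refine lintegral_congr fun a => lintegral_congr fun x => ?_
    congr 1
    ext i
    refine Fin.cases ?_ (fun j => ?_) i
    · simp [MeasurableEquiv.piFinSuccAbove]
    · simp [MeasurableEquiv.piFinSuccAbove]
  · exact (hf.comp (MeasurableEquiv.measurable _)).aemeasurable

omit [IsProbabilityMeasure μ] in
theorem lintegral_pi_zero {f : (Fin 0 → α) → ℝ≥0∞} :
    ∫⁻ x, f x ∂(Measure.pi fun _ : Fin 0 => μ) = f Fin.elim0 := by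
  rw [Measure.pi_of_empty (fun _ : Fin 0 => μ) Fin.elim0, lintegral_dirac]

end pi

end Pool.Agent.Y825.BR
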