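import Mathlib
import Pool.Agent.Y825.BR.Kernel
import Pool.Agent.Y825.BR.Defs

set_option autoImplicit false

namespace Pool.Agent.Y825.BR

open MeasureTheory
open scoped ENNReal unitInterval

section

variable {κ : I → I → ℝ}

theorem meas_cons {n : ℕ} (a : I) : Measurable fun x : Fin n → I => (Fin.cons a x : Fin (n + 1) → I) := by
  refine measurable_pi_lambda _ fun i => ?_
  refine Fin.cases ?_ (fun j => ?_) i
  · simp
  · simp only [Fin.cons_succ]; fun_prop

theorem kDens_K2 (hκ : IsKernel κ) :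
    kDens (⊤ : SimpleGraph (Fin 2)) κ = ∫⁻ x, ∫⁻ y, ENNReal.ofReal (κ x y) := by
  classical
  have hm : Measurable fun q : I × I => ENNReal.ofReal (κ q.1 q.2) := hκ.1.ennreal_ofReal
  have h1 : kDens (⊤ : SimpleGraph (Fin 2)) κ = ∫⁻ x : Fin 2 → I, ENNReal.ofReal (κ (x 0) (x 1)) := by
    unfold kDens
    refine lintegral_congr fun x => ?_
    simp [Fin.prod_univ_two]
  have hmf : Measurable fun x : Fin 2 → I => ENNReal.ofReal (κ (x 0) (x 1)) :=
    hm.comp (f := fun x : Fin 2 → I => (x 0, x 1)) (by fun_prop)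
  rw [h1, volume_pi, lintegral_pi_succ hmf]
  refine lintegral_congr fun a => ?_
  refine (lintegral_pi_succ (hmf.comp (meas_cons a))).trans ?_
  refine lintegral_congr fun b => ?_
  rw [lintegral_pi_zero]
  rfl

theorem kDens_K3 (hκ : IsKernel κ) :
    kDens (⊤ : SimpleGraph (Fin 3)) κ = ∫⁻ x, ∫⁻ z, ENNReal.ofReal (κ x z) *
      ∫⁻ y, ENNReal.ofReal (κ x y) * ENNReal.ofReal (κ y z) := by
  classical
  have hm : Measurable fun q : I × I => ENNReal.ofReal (κ q.1 q.2) := hκ.1.ennreal_ofReal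
  have h1 : kDens (⊤ : SimpleGraph (Fin 3)) κ = ∫⁻ x : Fin 3 → I, ENNReal.ofReal (κ (x 0) (x 1)) *
      (ENNReal.ofReal (κ (x 0) (x 2)) * ENNReal.ofReal (κ (x 2) (x 1))) := by
    unfold kDens
    refine lintegral_congr fun x => ?_
    simp [Fin.prod_univ_three, hκ.2.1 (x 2) (x 1), mul_assoc]
  have hmf : Measurable fun x : Fin 3 → I => ENNReal.ofReal (κ (x 0) (x 1)) *
      (ENNReal.ofReal (κ (x 0) (x 2)) * ENNReal.ofReal (κ (x 2) (x 1))) := by
    exact (hm.comp (f := fun x : Fin 3 → I => (x 0, x 1)) (by fun_prop)).mul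
      ((hm.comp (f := fun x : Fin 3 → I => (x 0, x 2)) (by fun_prop)).mul
      (hm.comp (f := fun x : Fin 3 → I => (x 2, x 1)) (by fun_prop)))
  rw [h1, volume_pi, lintegral_pi_succ hmf]
  refine lintegral_congr fun a => ?_
  refine (lintegral_pi_succ (hmf.comp (meas_cons a))).trans ?_
  refine lintegral_congr fun b => ?_
  have hmf2 : Measurable fun x : Fin 1 → I => ENNReal.ofReal (κ a b) *
      (ENNReal.ofReal (κ a (x 0)) * ENNReal.ofReal (κ (x 0) b)) := by
    exact measurable_const.mul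
      ((hm.comp (f := fun x : Fin 1 → I => (a, x 0)) (by fun_prop)).mul
      (hm.comp (f := fun x : Fin 1 → I => (x 0, b)) (by fun_prop)))
  calc _ = ∫⁻ x : Fin 1 → I, ENNReal.ofReal (κ a b) *
      (ENNReal.ofReal (κ a (x 0)) * ENNReal.ofReal (κ (x 0) b))
      ∂(Measure.pi fun _ : Fin 1 => (volume : Measure I)) := rfl
    _ = ∫⁻ y, ENNReal.ofReal (κ a b) * (ENNReal.ofReal (κ a y) * ENNReal.ofReal (κ y b)) := by
      rw [lintegral_pi_succ hmf2]
      refine lintegral_congr fun c => ?_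
      rw [lintegral_pi_zero]
      rfl
    _ = _ := by
      rw [lintegral_const_mul]
      exact (hm.comp (f := fun y : I => (a, y)) (by fun_prop)).mul
        (hm.comp (f := fun y : I => (y, b)) (by fun_prop))

theorem kDens_C4 (hκ : IsKernel κ) :
    kDens (SimpleGraph.cycleGraph 4) κ = ∫⁻ x, ∫⁻ z,
      (∫⁻ y, ENNReal.ofReal (κ x y) * ENNReal.ofReal (κ y z)) ^ 2 := by
  classical
  have hm : Measurable fun q : I × I => ENNReal.ofReal (κ q.1 q.2) := hκ.1.ennreal_ofReal
  -- vertices `0, 2` opposite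
  have h1 : kDens (SimpleGraph.cycleGraph 4) κ = ∫⁻ x : Fin 4 → I,
      (ENNReal.ofReal (κ (x 0) (x 1)) * ENNReal.ofReal (κ (x 1) (x 2))) *
      (ENNReal.ofReal (κ (x 0) (x 3)) * ENNReal.ofReal (κ (x 3) (x 2))) := by
    unfold kDens
    refine lintegral_congr fun x => ?_
    have e01 : (SimpleGraph.cycleGraph 4).Adj 0 1 := by decide
    have e12 : (SimpleGraph.cycleGraph 4).Adj 1 2 := by decide
    have e23 : (SimpleGraph.cycleGraph 4).Adj 2 3 := by decide
    have e03 : (SimpleGraph.cycleGraph 4).Adj 0 3 := by decide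
    have n02 : ¬ (SimpleGraph.cycleGraph 4).Adj 0 2 := by decide
    have n13 : ¬ (SimpleGraph.cycleGraph 4).Adj 1 3 := by decide
    have l01 : (0 : Fin 4) < 1 := by decide
    have l02 : (0 : Fin 4) < 2 := by decide
    have l03 : (0 : Fin 4) < 3 := by decide
    have l12 : (1 : Fin 4) < 2 := by decide
    have l13 : (1 : Fin 4) < 3 := by decide
    have l23 : (2 : Fin 4) < 3 := by decide
    have m10 : ¬ (1 : Fin 4) < 0 := by decide
    have m20 : ¬ (2 : Fin 4) < 0 := by decide
    have m30 : ¬ (3 : Fin 4) < 0 := by decide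
    have m21 : ¬ (2 : Fin 4) < 1 := by decide
    have m31 : ¬ (3 : Fin 4) < 1 := by decide
    have m32 : ¬ (3 : Fin 4) < 2 := by decide
    simp only [Fin.prod_univ_four, e01, e12, e23, e03, n02, n13, l01, l02, l03, l12, l13, l23,
      m10, m20, m30, m21, m31, m32, lt_irrefl, false_and, and_false, and_true, if_true, if_false,
      hκ.2.1 (x 3) (x 2), mul_one, one_mul]
    ring
  have hmf : Measurable fun x : Fin 4 → I =>
      (ENNReal.ofReal (κ (x 0) (x 1)) * ENNReal.ofReal (κ (x 1) (x 2))) *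
      (ENNReal.ofReal (κ (x 0) (x 3)) * ENNReal.ofReal (κ (x 3) (x 2))) := by
    exact ((hm.comp (f := fun x : Fin 4 → I => (x 0, x 1)) (by fun_prop)).mul
      (hm.comp (f := fun x : Fin 4 → I => (x 1, x 2)) (by fun_prop))).mul
      ((hm.comp (f := fun x : Fin 4 → I => (x 0, x 3)) (by fun_prop)).mul
      (hm.comp (f := fun x : Fin 4 → I => (x 3, x 2)) (by fun_prop)))
  have hm2 : ∀ a z : I, Measurable fun y => ENNReal.ofReal (κ a y) * ENNReal.ofReal (κ y z) :=
    fun a z => (hm.comp (f := fun y : I => (a, y)) (by fun_prop)).mul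
        (hm.comp (f := fun y : I => (y, z)) (by fun_prop))
  have hm3 : Measurable (fun q : (I × I) × I => ENNReal.ofReal (κ q.1.1 q.2) *
      ENNReal.ofReal (κ q.2 q.1.2)) := by
    exact (hm.comp (f := fun q : (I × I) × I => (q.1.1, q.2)) (by fun_prop)).mul
      (hm.comp (f := fun q : (I × I) × I => (q.2, q.1.2)) (by fun_prop))
  have hD : Measurable (fun q : I × I => ∫⁻ y, ENNReal.ofReal (κ q.1 y) *
      ENNReal.ofReal (κ y q.2)) := hm3.lintegral_prod_right'
  rw [h1, volume_pi, lintegral_pi_succ hmf]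
  refine lintegral_congr fun a => ?_
  refine (lintegral_pi_succ (hmf.comp (meas_cons a))).trans ?_
  -- now integrate over `b, z, w`
  have hmb : ∀ b : I, Measurable fun x : Fin 2 → I =>
      (ENNReal.ofReal (κ a b) * ENNReal.ofReal (κ b (x 0))) *
      (ENNReal.ofReal (κ a (x 1)) * ENNReal.ofReal (κ (x 1) (x 0))) := by
    intro b
    exact (measurable_const.mul (hm.comp (f := fun x : Fin 2 → I => (b, x 0)) (by fun_prop))).mul
      ((hm.comp (f := fun x : Fin 2 → I => (a, x 1)) (by fun_prop)).mul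
      (hm.comp (f := fun x : Fin 2 → I => (x 1, x 0)) (by fun_prop)))
  have hstep : ∀ b : I, ∫⁻ x : Fin 2 → I,
      (ENNReal.ofReal (κ a b) * ENNReal.ofReal (κ b (x 0))) *
      (ENNReal.ofReal (κ a (x 1)) * ENNReal.ofReal (κ (x 1) (x 0)))
      ∂(Measure.pi fun _ : Fin 2 => (volume : Measure I))
      = ∫⁻ z, (ENNReal.ofReal (κ a b) * ENNReal.ofReal (κ b z)) *
          ∫⁻ y, ENNReal.ofReal (κ a y) * ENNReal.ofReal (κ y z) := by
    intro b
    rw [lintegral_pi_succ (hmb b)]
    refine lintegral_congr fun z => ?_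
    refine (lintegral_pi_succ ((hmb b).comp (meas_cons z))).trans ?_
    rw [← lintegral_const_mul _ (hm2 a z)]
    refine lintegral_congr fun w => ?_
    rw [lintegral_pi_zero]
    rfl
  calc _ = ∫⁻ b, ∫⁻ x : Fin 2 → I,
      (ENNReal.ofReal (κ a b) * ENNReal.ofReal (κ b (x 0))) *
      (ENNReal.ofReal (κ a (x 1)) * ENNReal.ofReal (κ (x 1) (x 0)))
      ∂(Measure.pi fun _ : Fin 2 => (volume : Measure I)) := rfl
    _ = ∫⁻ b, ∫⁻ z, (ENNReal.ofReal (κ a b) * ENNReal.ofReal (κ b z)) *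
          ∫⁻ y, ENNReal.ofReal (κ a y) * ENNReal.ofReal (κ y z) :=
        lintegral_congr hstep
    _ = ∫⁻ z, ∫⁻ b, (ENNReal.ofReal (κ a b) * ENNReal.ofReal (κ b z)) *
          ∫⁻ y, ENNReal.ofReal (κ a y) * ENNReal.ofReal (κ y z) := by
        rw [lintegral_lintegral_swap]
        refine Measurable.aemeasurable ?_
        exact ((hm.comp (f := fun q : I × I => (a, q.1)) (by fun_prop)).mul
          (hm.comp (f := fun q : I × I => (q.1, q.2)) (by fun_prop))).mul
          (hD.comp (f := fun q : I × I => (a, q.2)) (by fun_prop))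
    _ = _ := by
        refine lintegral_congr fun z => ?_
        rw [lintegral_mul_const _ (hm2 a z), sq]

/-- A kernel with edge density `1` and four-cycle density `1` has triangle density `1`. -/
theorem kDens_triangle (hκ : IsKernel κ) (h2 : kDens (⊤ : SimpleGraph (Fin 2)) κ = 1)
    (h4 : kDens (SimpleGraph.cycleGraph 4) κ ≤ 1) : kDens (⊤ : SimpleGraph (Fin 3)) κ = 1 := by
  rw [kDens_K2 hκ] at h2
  rw [kDens_C4 hκ] at h4
  rw [kDens_K3 hκ]
  exact triangle_eq_one (μ := (volume : Measure I)) (κ := fun x y => ENNReal.ofReal (κ x y))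
    hκ.1.ennreal_ofReal (fun x y => by rw [hκ.2.1 x y]) h2 h4

end

end Pool.Agent.Y825.BR
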