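import Mathlib
import Pool.Agent.Y825.BR.Poly
import Pool.Agent.Y825.BR.Defs

set_option autoImplicit false

namespace Pool.Agent.Y825.BR

open Finset Filter Topology

noncomputable section

section avg

variable {V X : Type*} [Fintype V] [DecidableEq V] [Fintype X]

/-- the weight of an outcome `(τ, c)`: types `τ`, edge indicators `c` -/
def wt (q : Sym2 X → ℝ) (ω : (V → X) × (Sym2 V → Bool)) : ℝ :=
  ∏ e : Sym2 V, if ω.2 e then q (e.map ω.1) else 1 - q (e.map ω.1)

/-- expectation -/
def avg (q : Sym2 X → ℝ) (h : (V → X) × (Sym2 V → Bool) → ℝ) : ℝ :=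
  (∑ ω, wt q ω * h ω) / (Fintype.card X : ℝ) ^ Fintype.card V

omit [DecidableEq V] [Fintype X] in
theorem wt_nonneg {q : Sym2 X → ℝ} (hq0 : ∀ e, 0 ≤ q e) (hq1 : ∀ e, q e ≤ 1)
    (ω : (V → X) × (Sym2 V → Bool)) : 0 ≤ wt q ω := by
  refine Finset.prod_nonneg fun e _ => ?_
  split_ifs
  · exact hq0 _
  · linarith [hq1 (e.map ω.1)]

omit [Fintype X] in
/-- for fixed types: the probability that a given family of pairs is present -/
theorem sum_c {E : Type*} [Fintype E] (q : Sym2 X → ℝ) (τ : V → X) (S : E → Sym2 V)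
    (hS : Function.Injective S) :
    ∑ c : Sym2 V → Bool, wt q (τ, c) * ∏ e, (if c (S e) then (1 : ℝ) else 0)
      = ∏ e, q ((S e).map τ) := by
  classical
  have h1 : ∀ f : Sym2 V → ℝ, ∏ e, f (S e)
      = ∏ e' : Sym2 V, if e' ∈ Finset.univ.image S then f e' else 1 := by
    intro f
    rw [Finset.prod_ite_mem, Finset.univ_inter, Finset.prod_image (fun a _ b _ h => hS h)]
  rw [h1 fun e' => q (e'.map τ)]
  have h2 : ∀ c : Sym2 V → Bool, wt q (τ, c) * ∏ e, (if c (S e) then (1 : ℝ) else 0)
      = ∏ e' : Sym2 V, ((if c e' then q (e'.map τ) else 1 - q (e'.map τ)) *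
          (if e' ∈ Finset.univ.image S then (if c e' then (1 : ℝ) else 0) else 1)) := by
    intro c
    rw [h1 fun e' => if c e' then (1 : ℝ) else 0, wt, ← Finset.prod_mul_distrib]
  simp only [h2]
  rw [← Fintype.prod_sum (fun (e' : Sym2 V) (b : Bool) =>
    ((if b then q (e'.map τ) else 1 - q (e'.map τ)) *
          (if e' ∈ Finset.univ.image S then (if b then (1 : ℝ) else 0) else 1)))]
  refine Finset.prod_congr rfl fun e' _ => ?_
  rw [Fintype.sum_bool]
  split_ifs <;> simp_all

/-- marginals of the types -/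
theorem sum_comp {W : Type*} [Fintype W] [DecidableEq W] [Nonempty X] (f : W → V)
    (hf : Function.Injective f) (h : (W → X) → ℝ) :
    (∑ τ : V → X, h (τ ∘ f)) / (Fintype.card X : ℝ) ^ Fintype.card V
      = (∑ σ : W → X, h σ) / (Fintype.card X : ℝ) ^ Fintype.card W := by
  classical
  let U := {v : V // v ∉ Set.range f}
  let e : W ⊕ U ≃ V := (Equiv.sumCongr (Equiv.ofInjective f hf) (Equiv.refl _)).trans
    (Equiv.Set.sumCompl (Set.range f))
  have he : ∀ w, e (Sum.inl w) = f w := fun w => rfl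
  have hcard : Fintype.card V = Fintype.card W + Fintype.card U := by
    rw [← Fintype.card_sum, Fintype.card_congr e]
  have h1 : ∑ τ : V → X, h (τ ∘ f) = ∑ s : (W → X) × (U → X), h s.1 := by
    refine Fintype.sum_equiv ((Equiv.arrowCongr e.symm (Equiv.refl X)).trans
      (Equiv.sumArrowEquivProdArrow W U X)) _ _ fun τ => ?_
    congr 1
  rw [h1, Fintype.sum_prod_type]
  simp only [Finset.sum_const, Finset.card_univ, nsmul_eq_mul]
  rw [← Finset.mul_sum, Fintype.card_fun, hcard, pow_add]
  have hX : (0 : ℝ) < Fintype.card X := by exact_mod_cast Fintype.card_pos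
  push_cast
  field_simp

/-- first moment of the indicator that a fixed injective map is a homomorphism -/
theorem avg_hom {W E : Type*} [Fintype W] [DecidableEq W] [Fintype E] [Nonempty X]
    (κ : Sym2 X → ℝ) (p : ℝ) (ends : E → Sym2 W) (hends : Function.Injective ends)
    (f : W → V) (hf : Function.Injective f) :
    avg (V := V) (fun e => p * κ e) (fun ω => ∏ e, if ω.2 ((ends e).map f) then (1 : ℝ) else 0)
      = p ^ Fintype.card E * dens ends κ := by
  unfold avg dens
  rw [Fintype.sum_prod_type]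
  have h1 : ∀ τ : V → X, ∑ c : Sym2 V → Bool, wt (fun e => p * κ e) (τ, c) *
      ∏ e, (if c ((ends e).map f) then (1 : ℝ) else 0)
      = p ^ Fintype.card E * ∏ e, κ ((ends e).map (τ ∘ f)) := by
    intro τ
    rw [sum_c _ τ (fun e => (ends e).map f) ((Sym2.map.injective hf).comp hends)]
    rw [Finset.prod_mul_distrib, Finset.prod_const, Finset.card_univ]
    simp only [Sym2.map_map]
  simp only [h1]
  rw [← Finset.mul_sum, mul_div_assoc,
    sum_comp f hf (fun σ => ∏ e, κ ((ends e).map σ))]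

theorem avg_one [Nonempty X] (κ : Sym2 X → ℝ) (p : ℝ) :
    avg (V := V) (fun e => p * κ e) (fun _ => 1) = 1 := by
  have h := avg_hom (V := V) (W := Empty) (E := Empty) κ p (fun e => e.elim)
    (fun a => a.elim) (fun e => e.elim) (fun a => a.elim)
  simpa [dens] using h

theorem avg_sum {ι : Type*} (s : Finset ι) (q : Sym2 X → ℝ)
    (h : ι → (V → X) × (Sym2 V → Bool) → ℝ) :
    avg q (fun ω => ∑ i ∈ s, h i ω) = ∑ i ∈ s, avg q (h i) := by
  unfold avg
  rw [← Finset.sum_div, Finset.sum_comm]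
  simp only [Finset.mul_sum]

theorem avg_mul_left (q : Sym2 X → ℝ) (a : ℝ) (h : (V → X) × (Sym2 V → Bool) → ℝ) :
    avg q (fun ω => a * h ω) = a * avg q h := by
  unfold avg
  rw [← mul_div_assoc, Finset.mul_sum]
  congr 1
  exact Finset.sum_congr rfl fun ω _ => by ring

theorem avg_add (q : Sym2 X → ℝ) (h h' : (V → X) × (Sym2 V → Bool) → ℝ) :
    avg q (fun ω => h ω + h' ω) = avg q h + avg q h' := by
  unfold avg
  rw [← add_div, ← Finset.sum_add_distrib]
  congr 1
  exact Finset.sum_congr rfl fun ω _ => by ring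

theorem avg_mono {q : Sym2 X → ℝ} (hq0 : ∀ e, 0 ≤ q e) (hq1 : ∀ e, q e ≤ 1)
    {h h' : (V → X) × (Sym2 V → Bool) → ℝ} (hh : ∀ ω, h ω ≤ h' ω) : avg q h ≤ avg q h' := by
  unfold avg
  refine div_le_div_of_nonneg_right ?_ (by positivity)
  exact Finset.sum_le_sum fun ω _ => mul_le_mul_of_nonneg_left (hh ω) (wt_nonneg hq0 hq1 ω)

theorem exists_le_avg {q : Sym2 X → ℝ} (hq0 : ∀ e, 0 ≤ q e) (hq1 : ∀ e, q e ≤ 1)
    (hone : avg (V := V) q (fun _ => 1) = 1) (h : (V → X) × (Sym2 V → Bool) → ℝ) :
    ∃ ω, h ω ≤ avg q h := by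
  by_contra hcon
  push Not at hcon
  set A := avg q h with hA
  have h1 : avg q (fun ω => h ω + (-A) * 1) = 0 := by
    rw [avg_add, avg_mul_left, hone, ← hA]; ring
  unfold avg at h1 hone
  have hX : (Fintype.card X : ℝ) ^ Fintype.card V ≠ 0 := by
    intro h0
    rw [h0] at hone
    simp at hone
  rw [div_eq_iff hX, zero_mul] at h1
  rw [div_eq_iff hX, one_mul] at hone
  have h2 := (Finset.sum_eq_zero_iff_of_nonneg (fun ω _ =>
    mul_nonneg (wt_nonneg hq0 hq1 ω) (by linarith [hcon ω]))).mp h1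
  have h3 : ∀ ω : (V → X) × (Sym2 V → Bool), wt q ω = 0 := by
    intro ω
    have := h2 ω (Finset.mem_univ _)
    rcases mul_eq_zero.mp this with h4 | h4
    · exact h4
    · linarith [hcon ω]
  apply hX
  rw [← hone]
  exact Finset.sum_eq_zero fun ω _ => by rw [h3, zero_mul]

end avg

section second

variable {V X W E : Type*} [Fintype V] [DecidableEq V] [Fintype X] [Nonempty X]
  [Fintype W] [DecidableEq W] [Fintype E]

omit [Nonempty X] in
theorem dens_sum (κ : Sym2 X → ℝ) (ends : E → Sym2 W) :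
    dens (Sum.elim (fun e => (ends e).map Sum.inl) (fun e => (ends e).map Sum.inr) :
      E ⊕ E → Sym2 (W ⊕ W)) κ = dens ends κ ^ 2 := by
  unfold dens
  rw [div_pow, sq (∑ σ : W → X, ∏ e, κ ((ends e).map σ))]
  congr 1
  · rw [Finset.sum_mul_sum, ← Fintype.sum_prod_type'
      (fun (σ ρ : W → X) => (∏ e, κ ((ends e).map σ)) * ∏ e, κ ((ends e).map ρ))]
    refine Fintype.sum_equiv (Equiv.sumArrowEquivProdArrow W W X) _ _ fun σ => ?_
    rw [Fintype.prod_sum_type]
    simp only [Sum.elim_inl, Sum.elim_inr, Sym2.map_map]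
    rfl
  · rw [Fintype.card_sum, ← two_mul, pow_mul, ← pow_mul, ← pow_mul, mul_comm]

/-- the indicator that `f` maps all pairs to present pairs -/
def ind (ends : E → Sym2 W) (f : W → V) (ω : (V → X) × (Sym2 V → Bool)) : ℝ :=
  ∏ e, if ω.2 ((ends e).map f) then (1 : ℝ) else 0

omit [Fintype V] [DecidableEq V] [Fintype X] [Nonempty X] [Fintype W] [DecidableEq W] in
theorem ind_nonneg (ends : E → Sym2 W) (f : W → V) (ω : (V → X) × (Sym2 V → Bool)) :
    0 ≤ ind ends f ω := by
  refine Finset.prod_nonneg fun e _ => ?_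
  split_ifs <;> norm_num

omit [Fintype V] [DecidableEq V] [Fintype X] [Nonempty X] [Fintype W] [DecidableEq W] in
theorem ind_le_one (ends : E → Sym2 W) (f : W → V) (ω : (V → X) × (Sym2 V → Bool)) :
    ind ends f ω ≤ 1 := by
  refine Finset.prod_le_one (fun e _ => ?_) fun e _ => ?_
  all_goals split_ifs <;> norm_num

/-- pairs of maps with disjoint images are uncorrelated -/
theorem avg_ind_mul (κ : Sym2 X → ℝ) (p : ℝ) (ends : E → Sym2 W)
    (hends : Function.Injective ends) (f g : W → V) (hf : Function.Injective f)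
    (hg : Function.Injective g) (hfg : ∀ a b, f a ≠ g b) :
    avg (V := V) (fun e => p * κ e) (fun ω => ind ends f ω * ind ends g ω)
      = (p ^ Fintype.card E * dens ends κ) ^ 2 := by
  have hinj : Function.Injective (Sum.elim (fun e => (ends e).map Sum.inl)
      (fun e => (ends e).map Sum.inr) : E ⊕ E → Sym2 (W ⊕ W)) := by
    have hne : ∀ a b : Sym2 W, a.map (Sum.inl : W → W ⊕ W) ≠ b.map Sum.inr := by
      intro a b h
      induction a using Sym2.ind with
      | _ x y =>
      induction b using Sym2.ind with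
      | _ z w =>
      simp at h
    rintro (a | a) (b | b) h
    · simp only [Sum.elim_inl] at h
      rw [hends (Sym2.map.injective Sum.inl_injective h)]
    · exact absurd h (hne _ _)
    · exact absurd h.symm (hne _ _)
    · simp only [Sum.elim_inr] at h
      rw [hends (Sym2.map.injective Sum.inr_injective h)]
  have hfg' : Function.Injective (Sum.elim f g) := by
    rintro (a | a) (b | b) h
    · simp only [Sum.elim_inl] at h; rw [hf h]
    · exact absurd h (hfg _ _)
    · exact absurd h.symm (hfg _ _)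
    · simp only [Sum.elim_inr] at h; rw [hg h]
  have h := avg_hom (V := V) κ p _ hinj _ hfg'
  rw [dens_sum, Fintype.card_sum] at h
  have h2 : (fun ω : (V → X) × (Sym2 V → Bool) => ind ends f ω * ind ends g ω)
      = fun ω => ∏ e, if ω.2 (((Sum.elim (fun e => (ends e).map Sum.inl)
      (fun e => (ends e).map Sum.inr) : E ⊕ E → Sym2 (W ⊕ W)) e).map (Sum.elim f g))
        then (1 : ℝ) else 0 := by
    funext ω
    rw [Fintype.prod_sum_type]
    simp only [Sum.elim_inl, Sum.elim_inr, Sym2.map_map]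
    rfl
  rw [h2, h]
  ring

omit [DecidableEq W] in
/-- each vertex is hit equally often by a fixed coordinate of an injection -/
theorem card_fiber (b : W) (v v' : V) :
    (Finset.univ.filter (fun g : W ↪ V => g b = v)).card
      = (Finset.univ.filter (fun g : W ↪ V => g b = v')).card := by
  refine Finset.card_bij' (fun g _ => g.trans (Equiv.swap v v').toEmbedding)
    (fun g _ => g.trans (Equiv.swap v v').toEmbedding) ?_ ?_ ?_ ?_
  · intro g hg
    simp only [Finset.mem_filter, Finset.mem_univ, true_and] at hg ⊢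
    simp [hg]
  · intro g hg
    simp only [Finset.mem_filter, Finset.mem_univ, true_and] at hg ⊢
    simp [hg]
  · intro g _
    ext x
    simp
  · intro g _
    ext x
    simp

omit [DecidableEq W] in
theorem card_fiber_mul (b : W) (v : V) :
    Fintype.card V * (Finset.univ.filter (fun g : W ↪ V => g b = v)).card
      = Fintype.card (W ↪ V) := by
  have h := Finset.card_eq_sum_card_fiberwise (s := (Finset.univ : Finset (W ↪ V)))
    (t := (Finset.univ : Finset V)) (f := fun g => g b) (fun _ _ => Finset.mem_univ _)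
  rw [Finset.card_univ] at h
  rw [h, Finset.sum_congr rfl fun v' _ => (card_fiber b v' v), Finset.sum_const,
    Finset.card_univ, smul_eq_mul]

omit [DecidableEq W] in
/-- the number of pairs of injections with intersecting images -/
theorem card_nondisj :
    Fintype.card V * (Finset.univ.filter
      (fun q : (W ↪ V) × (W ↪ V) => ¬ ∀ a b, q.1 a ≠ q.2 b)).card
      ≤ Fintype.card W ^ 2 * Fintype.card (W ↪ V) ^ 2 := by
  classical
  have hsub : Finset.univ.filter (fun q : (W ↪ V) × (W ↪ V) => ¬ ∀ a b, q.1 a ≠ q.2 b)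
      ⊆ (Finset.univ : Finset (W × W)).biUnion fun ab =>
        Finset.univ.filter (fun q : (W ↪ V) × (W ↪ V) => q.1 ab.1 = q.2 ab.2) := by
    intro q hq
    simp only [Finset.mem_filter, Finset.mem_univ, true_and, not_forall, not_not] at hq
    obtain ⟨a, b, hab⟩ := hq
    simp only [Finset.mem_biUnion, Finset.mem_filter, Finset.mem_univ, true_and]
    exact ⟨(a, b), hab⟩
  have h1 : ∀ ab : W × W, Fintype.card V * (Finset.univ.filter
      (fun q : (W ↪ V) × (W ↪ V) => q.1 ab.1 = q.2 ab.2)).card = Fintype.card (W ↪ V) ^ 2 := by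
    intro ab
    have h2 : (Finset.univ.filter
      (fun q : (W ↪ V) × (W ↪ V) => q.1 ab.1 = q.2 ab.2)).card
        = ∑ f : W ↪ V, (Finset.univ.filter (fun g : W ↪ V => g ab.2 = f ab.1)).card := by
      rw [Finset.card_filter, Fintype.sum_prod_type]
      refine Finset.sum_congr rfl fun f _ => ?_
      rw [Finset.card_filter]
      refine Finset.sum_congr rfl fun g _ => ?_
      simp only [eq_comm]
    rw [h2, Finset.mul_sum, Finset.sum_congr rfl fun f _ => card_fiber_mul ab.2 (f ab.1),
      Finset.sum_const, Finset.card_univ, smul_eq_mul, sq]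
  calc Fintype.card V * (Finset.univ.filter
      (fun q : (W ↪ V) × (W ↪ V) => ¬ ∀ a b, q.1 a ≠ q.2 b)).card
      ≤ Fintype.card V * ∑ ab : W × W, (Finset.univ.filter
        (fun q : (W ↪ V) × (W ↪ V) => q.1 ab.1 = q.2 ab.2)).card := by
        refine Nat.mul_le_mul_left _ ((Finset.card_le_card hsub).trans Finset.card_biUnion_le)
    _ = Fintype.card W ^ 2 * Fintype.card (W ↪ V) ^ 2 := by
        rw [Finset.mul_sum, Finset.sum_congr rfl fun ab _ => h1 ab, Finset.sum_const,
          Finset.card_univ, smul_eq_mul, Fintype.card_prod, sq (Fintype.card W)]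

/-- **Second moment bound.** -/
theorem avg_sq_le {κ : Sym2 X → ℝ} {p : ℝ} (hq0 : ∀ e, 0 ≤ p * κ e) (hq1 : ∀ e, p * κ e ≤ 1)
    (ends : E → Sym2 W) (hends : Function.Injective ends) (hV : 0 < Fintype.card V)
    (hWV : 0 < Fintype.card (W ↪ V)) :
    avg (V := V) (fun e => p * κ e) (fun ω =>
      ((∑ f : W ↪ V, ind ends f ω) / Fintype.card (W ↪ V) - p ^ Fintype.card E * dens ends κ) ^ 2)
      ≤ (Fintype.card W : ℝ) ^ 2 / Fintype.card V := by
  classical
  set m := p ^ Fintype.card E * dens ends κ with hm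
  set T : ℝ := (Fintype.card (W ↪ V) : ℝ) with hT
  have hT0 : 0 < T := by rw [hT]; exact_mod_cast hWV
  have hV0 : (0 : ℝ) < Fintype.card V := by exact_mod_cast hV
  have h1 : ∀ f : W ↪ V, avg (V := V) (fun e => p * κ e) (ind ends f) = m := fun f =>
    avg_hom κ p ends hends f f.injective
  have hone : avg (V := V) (fun e => p * κ e) (fun _ => 1) = 1 := avg_one κ p
  -- the first moment
  have hfirst : avg (V := V) (fun e => p * κ e) (fun ω => ∑ f : W ↪ V, ind ends f ω) = T * m := by
    rw [avg_sum, Finset.sum_congr rfl fun f _ => h1 f, Finset.sum_const, Finset.card_univ,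
      nsmul_eq_mul]
  -- the second moment
  have hpair : ∀ q : (W ↪ V) × (W ↪ V), avg (V := V) (fun e => p * κ e)
      (fun ω => ind ends q.1 ω * ind ends q.2 ω) ≤ m ^ 2 + if ¬ ∀ a b, q.1 a ≠ q.2 b then 1 else 0 := by
    intro q
    by_cases hq : ∀ a b, q.1 a ≠ q.2 b
    · rw [avg_ind_mul κ p ends hends q.1 q.2 q.1.injective q.2.injective hq, if_neg (by simpa using hq)]
      simp [hm]
    · rw [if_pos hq]
      have : avg (V := V) (fun e => p * κ e) (fun ω => ind ends q.1 ω * ind ends q.2 ω) ≤ 1 := by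
        rw [← hone]
        refine avg_mono hq0 hq1 fun ω => ?_
        exact mul_le_one₀ (ind_le_one _ _ _) (ind_nonneg _ _ _) (ind_le_one _ _ _)
      nlinarith [sq_nonneg m]
  have hsecond : avg (V := V) (fun e => p * κ e) (fun ω => (∑ f : W ↪ V, ind ends f ω) ^ 2)
      ≤ T ^ 2 * m ^ 2 + (Fintype.card W : ℝ) ^ 2 * T ^ 2 / Fintype.card V := by
    have h2 : (fun ω : (V → X) × (Sym2 V → Bool) => (∑ f : W ↪ V, ind ends f ω) ^ 2)
        = fun ω => ∑ q : (W ↪ V) × (W ↪ V), ind ends q.1 ω * ind ends q.2 ω := by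
      funext ω
      rw [sq, Finset.sum_mul_sum, Fintype.sum_prod_type]
    rw [h2, avg_sum]
    calc ∑ q : (W ↪ V) × (W ↪ V), avg (V := V) (fun e => p * κ e)
          (fun ω => ind ends q.1 ω * ind ends q.2 ω)
        ≤ ∑ q : (W ↪ V) × (W ↪ V), (m ^ 2 + if ¬ ∀ a b, q.1 a ≠ q.2 b then 1 else 0) :=
          Finset.sum_le_sum fun q _ => hpair q
      _ = T ^ 2 * m ^ 2 + ((Finset.univ.filter
          (fun q : (W ↪ V) × (W ↪ V) => ¬ ∀ a b, q.1 a ≠ q.2 b)).card : ℝ) := by
          rw [Finset.sum_add_distrib, Finset.sum_const, Finset.card_univ, Fintype.card_prod,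
            nsmul_eq_mul, Finset.card_filter]
          push_cast
          rw [hT]
          ring
      _ ≤ _ := by
          have h3 := card_nondisj (V := V) (W := W)
          have h4 : (Fintype.card V : ℝ) * ((Finset.univ.filter
            (fun q : (W ↪ V) × (W ↪ V) => ¬ ∀ a b, q.1 a ≠ q.2 b)).card : ℝ)
              ≤ (Fintype.card W : ℝ) ^ 2 * T ^ 2 := by
            rw [hT]; exact_mod_cast h3
          have h5 : ((Finset.univ.filter
            (fun q : (W ↪ V) × (W ↪ V) => ¬ ∀ a b, q.1 a ≠ q.2 b)).card : ℝ)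
              ≤ (Fintype.card W : ℝ) ^ 2 * T ^ 2 / Fintype.card V := by
            rw [le_div_iff₀ hV0]; linarith
          linarith
  -- assemble
  have h6 : (fun ω : (V → X) × (Sym2 V → Bool) =>
      ((∑ f : W ↪ V, ind ends f ω) / T - m) ^ 2)
      = fun ω => ((1 / T ^ 2) * (∑ f : W ↪ V, ind ends f ω) ^ 2
          + ((-(2 * m / T)) * (∑ f : W ↪ V, ind ends f ω) + m ^ 2 * 1)) := by
    funext ω
    field_simp
    ring
  rw [h6, avg_add, avg_add, avg_mul_left, avg_mul_left, avg_mul_left, hfirst, hone]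
  have h7 : 1 / T ^ 2 * avg (V := V) (fun e => p * κ e) (fun ω => (∑ f : W ↪ V, ind ends f ω) ^ 2)
      ≤ m ^ 2 + (Fintype.card W : ℝ) ^ 2 / Fintype.card V := by
    calc _ ≤ 1 / T ^ 2 * (T ^ 2 * m ^ 2 + (Fintype.card W : ℝ) ^ 2 * T ^ 2 / Fintype.card V) :=
          mul_le_mul_of_nonneg_left hsecond (by positivity)
      _ = _ := by field_simp
  have h8 : -(2 * m / T) * (T * m) = -(2 * m ^ 2) := by field_simp
  rw [h8]
  linarith

end second

end

end Pool.Agent.Y825.BR
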