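import Mathlib
import Pool.Agent.Y825.BR.Random
import Pool.Agent.Y825.BR.Limit
import Pool.Agent.Y825.BR.NoKernel

set_option autoImplicit false

namespace Pool.Agent.Y825.BR

open Finset Filter Topology

noncomputable section

/-- the density of `F` in a finite weighted graph -/
def densG {k : ℕ} {X : Type*} [Fintype X] (F : SimpleGraph (Fin k)) (κ : Sym2 X → ℝ) : ℝ :=
  by classical exact dens (Subtype.val : F.edgeFinset → Sym2 (Fin k)) κ

theorem tendsto_densG {k : ℕ} (F : SimpleGraph (Fin k)) :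
    Tendsto (fun N : ℕ => densG F (kapN N)) atTop (𝓝 (Real.exp (numTriangles F))) := by
  classical
  exact tendsto_dens F

theorem emb_eq {k n : ℕ} {X : Type*} (F : SimpleGraph (Fin k)) [DecidableRel F.Adj]
    (ω : (Fin n → X) × (Sym2 (Fin n) → Bool)) :
    (emb F (SimpleGraph.fromEdgeSet {e | ω.2 e = true}) : ℝ)
      = ∑ f : Fin k ↪ Fin n, ind (Subtype.val : F.edgeFinset → Sym2 (Fin k)) f ω := by
  classical
  have hind : ∀ f : Fin k ↪ Fin n, ind (Subtype.val : F.edgeFinset → Sym2 (Fin k)) f ω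
      = if (∀ u v, F.Adj u v → (SimpleGraph.fromEdgeSet {e | ω.2 e = true}).Adj (f u) (f v))
        then 1 else 0 := by
    intro f
    unfold ind
    rw [Finset.prod_boole]
    congr 1
    apply propext
    constructor
    · intro h u v huv
      rw [SimpleGraph.fromEdgeSet_adj]
      refine ⟨?_, f.injective.ne huv.ne⟩
      exact h ⟨s(u, v), by simpa using huv⟩ (Finset.mem_univ _)
    · rintro h ⟨e, he⟩ _
      induction e using Sym2.ind with
      | _ u v =>
      have huv : F.Adj u v := by simpa using he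
      have := h u v huv
      rw [SimpleGraph.fromEdgeSet_adj] at this
      exact this.1
  simp only [hind]
  rw [Finset.sum_boole]
  congr 1
  unfold emb
  rw [← Fintype.card_subtype, Nat.card_eq_fintype_card]
  refine Fintype.card_congr ?_
  refine ⟨fun f => ⟨⟨f.1, f.2.1⟩, f.2.2⟩, fun f => ⟨f.1, f.1.injective, f.2⟩, fun f => rfl,
    fun f => rfl⟩

/-- For a finite list of graphs there is a graph on `n` vertices with all normalised counts close to
the densities of `κ`. -/
theorem exists_graph {J : Type*} [Fintype J] (k : J → ℕ) (F : ∀ j, SimpleGraph (Fin (k j)))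
    {n : ℕ} (hn : 0 < n) (hk : ∀ j, k j ≤ n) {X : Type*} [Fintype X] [Nonempty X]
    {κ : Sym2 X → ℝ} {p : ℝ} (hp : 0 < p) (hq0 : ∀ e, 0 ≤ p * κ e) (hq1 : ∀ e, p * κ e ≤ 1) :
    ∃ G : SimpleGraph (Fin n), ∀ j, (sDens p (F j) G - densG (F j) κ) ^ 2
      ≤ ∑ j, (k j : ℝ) ^ 2 * (1 / ((n : ℝ) * p ^ (2 * (F j).edgeSet.ncard))) := by
  classical
  set d : J → ℝ := fun j => densG (F j) κ with hd
  set m : J → ℝ := fun j => p ^ (F j).edgeSet.ncard with hm
  have hcardE : ∀ j, Fintype.card (F j).edgeFinset = (F j).edgeSet.ncard := by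
    intro j
    rw [Fintype.card_coe, ← Set.ncard_coe_finset, SimpleGraph.coe_edgeFinset]
  -- the quadratic deviation
  set Y : ∀ _ : J, (Fin n → X) × (Sym2 (Fin n) → Bool) → ℝ := fun j ω =>
    ((∑ f : Fin (k j) ↪ Fin n, ind (Subtype.val : (F j).edgeFinset → Sym2 (Fin (k j))) f ω)
      / Fintype.card (Fin (k j) ↪ Fin n) - m j * d j) ^ 2 with hY
  have hcW : ∀ j, 0 < Fintype.card (Fin (k j) ↪ Fin n) := by
    intro j
    rw [Fintype.card_embedding_eq, Fintype.card_fin, Fintype.card_fin]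
    exact Nat.descFactorial_pos.mpr (hk j)
  have havg : ∀ j, avg (V := Fin n) (fun e => p * κ e) (Y j) ≤ (k j : ℝ) ^ 2 / n := by
    intro j
    have h := avg_sq_le (V := Fin n) hq0 hq1 (Subtype.val : (F j).edgeFinset → Sym2 (Fin (k j)))
      Subtype.val_injective (by simpa using hn) (hcW j)
    rw [Fintype.card_fin, Fintype.card_fin, hcardE j] at h
    exact h
  obtain ⟨ω, hω⟩ := exists_le_avg (V := Fin n) hq0 hq1 (avg_one κ p)
    (fun ω => ∑ j, (1 / m j ^ 2) * Y j ω)
  refine ⟨SimpleGraph.fromEdgeSet {e | ω.2 e = true}, fun j => ?_⟩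
  have hm0 : ∀ j, 0 < m j := fun j => pow_pos hp _
  have h1 : (sDens p (F j) (SimpleGraph.fromEdgeSet {e | ω.2 e = true}) - densG (F j) κ) ^ 2
      = (1 / m j ^ 2) * Y j ω := by
    unfold sDens
    rw [emb_eq (F j) ω]
    have h2 : ((Fintype.card (Fin (k j) ↪ Fin n) : ℕ) : ℝ) = (n.descFactorial (k j) : ℝ) := by
      rw [Fintype.card_embedding_eq, Fintype.card_fin, Fintype.card_fin]
    have h3 : (0 : ℝ) < (n.descFactorial (k j) : ℝ) := by
      exact_mod_cast Nat.descFactorial_pos.mpr (hk j)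
    have h4 := hm0 j
    simp only [hY, h2]
    change ((_ : ℝ) / (m j * (n.descFactorial (k j) : ℝ)) - d j) ^ 2 = _
    field_simp
  rw [h1]
  calc 1 / m j ^ 2 * Y j ω ≤ ∑ j, (1 / m j ^ 2) * Y j ω := by
        refine Finset.single_le_sum (f := fun j => (1 / m j ^ 2) * Y j ω) (fun j _ => ?_)
          (Finset.mem_univ j)
        exact mul_nonneg (by positivity) (sq_nonneg _)
    _ ≤ avg (V := Fin n) (fun e => p * κ e) (fun ω => ∑ j, (1 / m j ^ 2) * Y j ω) := hω
    _ = ∑ j, (1 / m j ^ 2) * avg (V := Fin n) (fun e => p * κ e) (Y j) := by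
        rw [avg_sum]
        exact Finset.sum_congr rfl fun j _ => avg_mul_left _ _ _
    _ ≤ ∑ j, (1 / m j ^ 2) * ((k j : ℝ) ^ 2 / n) := by
        refine Finset.sum_le_sum fun j _ => mul_le_mul_of_nonneg_left (havg j) (by positivity)
    _ = ∑ j, (k j : ℝ) ^ 2 * (1 / ((n : ℝ) * p ^ (2 * (F j).edgeSet.ncard))) := by
        refine Finset.sum_congr rfl fun j _ => ?_
        have h4 := hm0 j
        have hn' : (0 : ℝ) < n := by exact_mod_cast hn
        have h5 : p ^ (2 * (F j).edgeSet.ncard) = m j ^ 2 := by rw [hm]; ring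
        rw [h5]
        field_simp

/-- a diagonal choice -/
theorem diag {Q : ℕ → ℕ → Prop} (h : ∀ N, ∀ᶠ n in atTop, Q N n) :
    ∃ N : ℕ → ℕ, Tendsto N atTop atTop ∧ ∀ᶠ n in atTop, Q (N n) n := by
  classical
  have h' : ∀ N, ∃ t, ∀ n ≥ t, Q N n := fun N => eventually_atTop.mp (h N)
  choose t ht using h'
  refine ⟨fun n => Nat.findGreatest (fun m => ∀ i ≤ m, t i ≤ n) n, ?_, ?_⟩
  · rw [tendsto_atTop]
    intro M
    have h1 : ∀ᶠ n in atTop, ∀ i ≤ M, t i ≤ n := by
      rw [eventually_atTop]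
      refine ⟨∑ i ∈ Finset.range (M + 1), t i, fun n hn i hi => ?_⟩
      refine le_trans ?_ hn
      exact Finset.single_le_sum (f := t) (fun _ _ => Nat.zero_le _)
        (Finset.mem_range.mpr (by omega))
    filter_upwards [h1, eventually_ge_atTop M] with n hn hM
    exact Nat.le_findGreatest hM hn
  · filter_upwards [eventually_ge_atTop (t 0)] with n hn
    have h2 : ∀ i ≤ Nat.findGreatest (fun m => ∀ i ≤ m, t i ≤ n) n, t i ≤ n :=
      Nat.findGreatest_spec (P := fun m => ∀ i ≤ m, t i ≤ n) (m := 0) (Nat.zero_le n)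
        (fun i hi => by rw [Nat.le_zero.mp hi]; exact hn)
    exact ht _ n (h2 _ le_rfl)

/-- An almost dense `p` beats every fixed power. -/
theorem tendsto_inv_pow {p : ℕ → ℝ} (hp : ∀ n, 0 < p n ∧ p n ≤ 1)
    (had : Tendsto (fun n : ℕ => Real.log (1 / p n) / Real.log n) atTop (𝓝 0)) (m : ℕ) :
    Tendsto (fun n : ℕ => 1 / ((n : ℝ) * p n ^ m)) atTop (𝓝 0) := by
  have hε : (0 : ℝ) < 1 / (2 * (m + 1)) := by positivity
  have h1 : ∀ᶠ n : ℕ in atTop, Real.log (1 / p n) / Real.log n < 1 / (2 * (m + 1)) :=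
    had.eventually (gt_mem_nhds hε)
  have h2 : Tendsto (fun n : ℕ => ((n : ℝ) ^ (-(1 / 2) : ℝ))) atTop (𝓝 0) :=
    (tendsto_rpow_neg_atTop (y := 1 / 2) (by norm_num)).comp tendsto_natCast_atTop_atTop
  refine squeeze_zero' ?_ ?_ h2
  · filter_upwards with n
    have := (hp n).1
    positivity
  · filter_upwards [h1, eventually_ge_atTop 2] with n hn h2n
    have hp0 := (hp n).1
    have hn1 : (1 : ℝ) < n := by exact_mod_cast h2n
    have hlog : 0 < Real.log n := Real.log_pos hn1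
    have hn0 : (0 : ℝ) < n := by linarith
    rw [div_lt_iff₀ hlog] at hn
    -- `log (1/p) ≤ log n / (2 (m+1))`
    have h3 : Real.log (1 / p n) = - Real.log (p n) := by
      rw [one_div, Real.log_inv]
    have h4 : (m : ℝ) * (-Real.log (p n)) ≤ 1 / 2 * Real.log n := by
      rw [h3] at hn
      have hm0 : (0 : ℝ) ≤ m := Nat.cast_nonneg m
      calc (m : ℝ) * (-Real.log (p n)) ≤ m * (1 / (2 * (m + 1)) * Real.log n) :=
            mul_le_mul_of_nonneg_left hn.le hm0
        _ = (m / (m + 1)) * (1 / 2 * Real.log n) := by field_simp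
        _ ≤ 1 * (1 / 2 * Real.log n) := by
            refine mul_le_mul_of_nonneg_right ?_ (by positivity)
            rw [div_le_one (by positivity)]; linarith
        _ = 1 / 2 * Real.log n := one_mul _
    have h5 : (n : ℝ) ^ (1 / 2 : ℝ) ≤ (n : ℝ) * p n ^ m := by
      rw [← Real.log_le_log_iff (Real.rpow_pos_of_pos hn0 _) (by positivity),
        Real.log_rpow hn0, Real.log_mul hn0.ne' (by positivity), Real.log_pow]
      linarith
    rw [Real.rpow_neg hn0.le, ← one_div]
    exact one_div_le_one_div_of_le (Real.rpow_pos_of_pos hn0 _) h5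

/-- **The graph sequence.** -/
theorem exists_sequence {p : ℕ → ℝ} (hp : ∀ n, 0 < p n ∧ p n ≤ 1)
    (had : Tendsto (fun n : ℕ => Real.log (1 / p n) / Real.log n) atTop (𝓝 0))
    (hp0 : Tendsto p atTop (𝓝 0)) :
    ∃ G : ∀ n, SimpleGraph (Fin n), ∀ (k : ℕ) (F : SimpleGraph (Fin k)),
      Tendsto (fun n => sDens (p n) F (G n)) atTop (𝓝 (Real.exp (numTriangles F))) := by
  classical
  have hQ : ∀ N : ℕ, ∀ᶠ n in atTop, ∃ G : SimpleGraph (Fin n), ∀ k ≤ N,
      ∀ F : SimpleGraph (Fin k), |sDens (p n) F G - densG F (kapN (N + 1))| ≤ 1 / ((N : ℝ) + 1) := by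
    intro N
    let J := Σ k : Fin (N + 1), SimpleGraph (Fin k)
    have hsum : Tendsto (fun n : ℕ => ∑ j : J, (j.1 : ℝ) ^ 2 *
        (1 / ((n : ℝ) * p n ^ (2 * j.2.edgeSet.ncard)))) atTop (𝓝 (∑ j : J, (j.1 : ℝ) ^ 2 * 0)) :=
      tendsto_finsetSum _ fun j _ => (tendsto_inv_pow hp had _).const_mul _
    simp only [mul_zero, Finset.sum_const_zero] at hsum
    have hpos : (0 : ℝ) < (1 / ((N : ℝ) + 1)) ^ 2 := by positivity
    have hp2 : ∀ᶠ n in atTop, p n < 1 / 2 ^ (N + 1) :=
      hp0.eventually (gt_mem_nhds (by positivity))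
    filter_upwards [hsum.eventually (gt_mem_nhds hpos), hp2, eventually_ge_atTop (N + 1)] with
      n hn1 hn2 hn3
    have hpn := (hp n).1
    have hq0 : ∀ e, 0 ≤ p n * kapN (N + 1) e := fun e =>
      mul_nonneg hpn.le (kapN_nonneg (by omega) e)
    have hq1 : ∀ e, p n * kapN (N + 1) e ≤ 1 := by
      intro e
      calc p n * kapN (N + 1) e ≤ (1 / 2 ^ (N + 1)) * 2 ^ (N + 1) :=
            mul_le_mul hn2.le (kapN_le (by omega) e) (kapN_nonneg (by omega) e) (by positivity)
        _ = 1 := by field_simp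
    obtain ⟨G, hG⟩ := exists_graph (J := J) (fun j => (j.1 : ℕ)) (fun j => j.2) (n := n)
      (by omega) (fun j => by have := j.1.2; omega) hpn hq0 hq1
    refine ⟨G, fun k hk F => ?_⟩
    have h1 := hG ⟨⟨k, by omega⟩, F⟩
    have h2 : (sDens (p n) F G - densG F (kapN (N + 1))) ^ 2 ≤ (1 / ((N : ℝ) + 1)) ^ 2 :=
      h1.trans hn1.le
    exact abs_le_of_sq_le_sq h2 (by positivity)
  obtain ⟨Nn, hNn, hev⟩ := diag hQ
  refine ⟨fun n => if h : ∃ G : SimpleGraph (Fin n), ∀ k ≤ Nn n, ∀ F : SimpleGraph (Fin k),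
      |sDens (p n) F G - densG F (kapN (Nn n + 1))| ≤ 1 / ((Nn n : ℝ) + 1) then h.choose else ⊥,
    fun k F => ?_⟩
  have h1 : Tendsto (fun n => densG F (kapN (Nn n + 1))) atTop (𝓝 (Real.exp (numTriangles F))) :=
    (tendsto_densG F).comp ((tendsto_add_atTop_nat 1).comp hNn)
  have h2 : Tendsto (fun n => 1 / ((Nn n : ℝ) + 1)) atTop (𝓝 0) :=
    tendsto_one_div_add_atTop_nhds_zero_nat.comp hNn
  refine tendsto_of_tendsto_of_dist h1 ?_
  refine squeeze_zero' (Eventually.of_forall fun _ => dist_nonneg) ?_ h2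
  filter_upwards [hev, hNn.eventually (eventually_ge_atTop k)] with n hn hk
  rw [dif_pos hn, dist_comm, Real.dist_eq]
  exact hn.choose_spec k hk F

/-- triangle counts of the three test graphs -/
theorem numTriangles_K2 : numTriangles (⊤ : SimpleGraph (Fin 2)) = 0 := by
  unfold numTriangles
  rw [Set.ncard_eq_zero (Set.toFinite _)]
  ext t
  simp only [Set.mem_ofPred_eq, Set.mem_empty_iff_false, iff_false]
  intro h
  have h1 := h.card_eq
  have h2 := Finset.card_le_univ t
  simp at h2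
  omega

theorem numTriangles_C4 : numTriangles (SimpleGraph.cycleGraph 4) = 0 := by
  unfold numTriangles
  rw [Set.ncard_eq_zero (Set.toFinite _)]
  ext t
  simp only [Set.mem_ofPred_eq, Set.mem_empty_iff_false, iff_false]
  revert t
  decide

theorem numTriangles_K3 : numTriangles (⊤ : SimpleGraph (Fin 3)) = 1 := by
  unfold numTriangles
  rw [Set.ncard_eq_one]
  refine ⟨Finset.univ, ?_⟩
  ext t
  simp only [Set.mem_ofPred_eq, Set.mem_singleton_iff]
  revert t
  decide

/-- **No kernel.** -/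
theorem no_kernel : ¬ ∃ κ : unitInterval → unitInterval → ℝ, IsKernel κ ∧
    ∀ (k : ℕ) (F : SimpleGraph (Fin k)), kDens F κ = ENNReal.ofReal (Real.exp (numTriangles F)) := by
  rintro ⟨κ, hκ, h⟩
  have h2 : kDens (⊤ : SimpleGraph (Fin 2)) κ = 1 := by
    rw [h, numTriangles_K2]; simp
  have h4 : kDens (SimpleGraph.cycleGraph 4) κ ≤ 1 := by
    rw [h, numTriangles_C4]; simp
  have h3 := kDens_triangle hκ h2 h4
  rw [h, numTriangles_K3] at h3
  have h5 : Real.exp ((1 : ℕ) : ℝ) = 1 := by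
    have := (ENNReal.ofReal_eq_one).mp h3
    exact this
  have h6 : (1 : ℝ) < Real.exp ((1 : ℕ) : ℝ) := by
    rw [Real.one_lt_exp_iff]; norm_num
  linarith

end

end Pool.Agent.Y825.BR
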